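import Pool.Agent.Results.MP_346d6a_co.Classification

/-!
The former hand-in `AMR`, derived from the classification.
-/

namespace Pool.Agent.Lib.MP_346d6a_co.Variants.AMR

open Polynomial Pool.Agent.Lib.MP_346d6a_co

theorem result (F : Type) [Field F] [Fintype F] [CharP F 2] (f : F[X]) (hf : ExcAPN f) :
    ∃ t : ℕ, (Gold t ∨ Kasami t) ∧
      {m : ℕ | 1 ≤ m ∧ ∃ (E : Type) (_ : Field E) (_ : Algebra F E), Module.finrank F E = m ∧
        CCZ (fun x : E => aeval x f) (fun x => x ^ t)}.Infinite ∧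
      ∀ (E : Type) [Field E] [Finite E] [Algebra F E], IsAPN (fun x : E => aeval x f) →
        t + 1 < Nat.card E → CCZ (fun x : E => aeval x f) (fun x => x ^ t) := by
  obtain ⟨n, -, hn⟩ := FiniteField.card F 2
  obtain ⟨j, t, hj, -, h1, h2⟩ :=
    ((Pool.Agent.Results.MP_346d6a_co.Classification.result F n hn f).out 0 2).1 hf
  exact ⟨t, hj.2.imp (fun h => ⟨j, hj.1, h⟩) fun h => ⟨j, hj.1, h⟩,
    h1.mono fun m hm => ⟨hm.1, hm.2.2⟩, fun E _ _ _ h _ => h2 E h⟩

end Pool.Agent.Lib.MP_346d6a_co.Variants.AMR
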